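import Pool.Agent.W345.VO.Stm

/-!
Project VO, part IND: the uniqueness principle.
-/

set_option autoImplicit false

namespace Pool.Agent.W119.VO

open MvPolynomial Pool.Agent.W345.VO

theorem const_of_span {v : VV} (hv : v ∈ Submodule.span ℂ (Set.range ee)) (j : ℤ) :
    ∃ a : ℂ, v j = C a := by
  induction hv using Submodule.span_induction with
  | mem x hx =>
    obtain ⟨k, rfl⟩ := hx
    unfold ee
    rw [Finsupp.single_apply]
    split_ifs
    · exact ⟨1, by simp⟩
    · exact ⟨0, by simp⟩
  | zero => exact ⟨0, by simp⟩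
  | add x y _ _ hx hy =>
    obtain ⟨a, ha⟩ := hx
    obtain ⟨b, hb⟩ := hy
    exact ⟨a + b, by rw [Finsupp.add_apply, ha, hb, C_add]⟩
  | smul r x _ hx =>
    obtain ⟨a, ha⟩ := hx
    exact ⟨r * a, by rw [Finsupp.smul_apply, ha, smul_eq_C_mul, C_mul]⟩

theorem zero_of_const {d : ℤ} (hd : 0 < d) {a : ℂ} (h : hom d (C a)) : (C a : PP) = 0 := by
  rcases h with ⟨_, h⟩ | h
  · by_contra hne
    have ha : a ≠ 0 := fun h0 => hne (by rw [h0, C_0])
    have h1 : coeff 0 (C a : PP) ≠ 0 := by
      rw [coeff_C, if_pos rfl]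
      exact ha
    have h2 := h h1
    rw [map_zero] at h2
    omega
  · exact h

theorem ind : S_FOCK → S_BAS → S_IND := by
  rintro ⟨hF1, hF2⟩ ⟨-, -, -, hB⟩ c g x y D H1 H2 H3
  have key : ∀ N : ℕ, ∀ m n k : ℤ, g k - m - n ≤ N → D m n (ee k) = 0 := by
    intro N
    induction N using Nat.strong_induction_on with
    | _ N ih =>
      intro m n k hN
      obtain ⟨p, hp, hp2⟩ := H2 m n k
      rcases lt_trichotomy (g k - m - n) 0 with hd | hd | hd
      · rcases hp2 with ⟨h0, _⟩ | h0
        · omega
        · rw [hp, h0, Finsupp.single_zero]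
      · exact H3 m n k (by omega)
      · have hv : D m n (ee k) ∈ Submodule.span ℂ (Set.range ee) := by
          apply hF1
          intro l hl
          have h1 := H1 l m n (ee k)
          rw [hB k l hl, map_zero, sub_zero] at h1
          rw [h1]
          have h2 : ∀ m' n' : ℤ, g k - m' - n' < g k - m - n → D m' n' (ee k) = 0 := by
            intro m' n' hlt
            refine ih (g k - m - n - 1).toNat (by omega) m' n' k ?_
            rw [Int.toNat_of_nonneg (by omega)]
            omega
          rw [h2 (m + l) n (by omega), h2 m (n + l) (by omega), smul_zero, smul_zero, add_zero]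
        obtain ⟨a, ha⟩ := const_of_span hv (k + c)
        rw [hp, Finsupp.single_eq_same] at ha
        rw [hp, ha]
        rw [ha] at hp2
        rw [zero_of_const hd hp2, Finsupp.single_zero]
  have hee : ∀ m n k : ℤ, D m n (ee k) = 0 := by
    intro m n k
    exact key (g k - m - n).toNat m n k (Int.self_le_toNat _)
  intro m n v
  let S : Submodule ℂ VV := ⨅ m : ℤ, ⨅ n : ℤ, LinearMap.ker (D m n)
  have hS : ∀ w : VV, w ∈ S ↔ ∀ m n : ℤ, D m n w = 0 := by
    intro w
    simp only [S, Submodule.mem_iInf, LinearMap.mem_ker]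
  have hT : S = ⊤ := by
    refine hF2 S (fun k => (hS _).2 fun m n => hee m n k) fun l w hw => ?_
    rw [hS] at hw ⊢
    intro m n
    have h1 := H1 (-(l : ℤ) - 1) m n w
    rw [hw, hw, hw, map_zero, smul_zero, smul_zero, add_zero, zero_sub, neg_eq_zero] at h1
    exact h1
  have : v ∈ S := by rw [hT]; trivial
  exact (hS v).1 this m n

end Pool.Agent.W119.VO
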